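import Pool.Agent.K3h74.GL.Stm

/-!
# The algorithm of Rubio de Francia
-/

set_option autoImplicit false

open MeasureTheory Set
open scoped ENNReal NNReal

namespace Pool.Agent.K3h60.GL

open Pool.Agent.K3h74.GL

theorem le_Mx (f : ℝ → ℝ≥0∞) (x z y : ℝ) (h : |x - z| < y) :
    (∫⁻ t in I z y, f t) / ENNReal.ofReal (2 * y) ≤ Mx f x := by
  unfold Mx
  exact le_iSup_of_le z (le_iSup_of_le y (le_iSup_of_le h le_rfl))

theorem Mx_congr {f g : ℝ → ℝ≥0∞} (h : f =ᵐ[volume] g) (x : ℝ) : Mx f x = Mx g x := by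
  unfold Mx
  have h1 : ∀ z y : ℝ, ∫⁻ t in I z y, f t = ∫⁻ t in I z y, g t := fun z y =>
    lintegral_congr_ae (ae_restrict_of_ae h)
  simp only [h1]

theorem Mx_tsum (F : ℕ → ℝ → ℝ≥0∞) (hF : ∀ k, Measurable (F k)) (c : ℕ → ℝ≥0∞) (x : ℝ) :
    Mx (fun x => ∑' k, c k * F k x) x ≤ ∑' k, c k * Mx (F k) x := by
  conv_lhs => unfold Mx
  refine iSup_le fun z => iSup_le fun y => iSup_le fun h => ?_
  rw [lintegral_tsum (fun k => ((hF k).const_mul _).aemeasurable), ENNReal.div_eq_inv_mul,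
    ← ENNReal.tsum_mul_left]
  refine ENNReal.tsum_le_tsum fun k => ?_
  rw [lintegral_const_mul _ (hF k)]
  have h1 := le_Mx (F k) x z y h
  calc (ENNReal.ofReal (2 * y))⁻¹ * (c k * ∫⁻ t in I z y, F k t)
      = c k * ((∫⁻ t in I z y, F k t) / ENNReal.ofReal (2 * y)) := by
        rw [ENNReal.div_eq_inv_mul]; ring
    _ ≤ c k * Mx (F k) x := mul_le_mul_right h1 _

theorem Mx_ne_zero {f : ℝ → ℝ≥0∞} (hf : Measurable f) (h : ¬ (f =ᵐ[volume] 0)) (x : ℝ) :
    Mx f x ≠ 0 := by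
  intro h0
  apply h
  have h1 : ∀ n : ℕ, ∀ᵐ t : ℝ, t ∈ I x (n + 1) → f t = 0 := by
    intro n
    have h2 := le_Mx f x x (n + 1) (by rw [sub_self, abs_zero]; positivity)
    rw [h0, nonpos_iff_eq_zero, ENNReal.div_eq_zero_iff] at h2
    have h3 : ∫⁻ t in I x (n + 1), f t = 0 := by
      rcases h2 with h2 | h2
      · exact h2
      · exact absurd h2 ENNReal.ofReal_ne_top
    exact (setLIntegral_eq_zero_iff (measurableSet_Icc : MeasurableSet (I x (n + 1))) hf).mp h3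
  rw [← ae_all_iff] at h1
  filter_upwards [h1] with t ht
  obtain ⟨n, hn⟩ := exists_nat_ge |t - x|
  apply ht n
  rw [abs_le] at hn
  unfold I
  constructor <;> linarith [hn.1, hn.2]

theorem t_RDF : S_MMX → S_MAX → S_RDF := by
  intro hmm hmax p C hp hC
  obtain ⟨K₀, hK₀, hM⟩ := hmax p C hp hC
  set B : ℝ≥0∞ := max 1 K₀ with hB
  have hB1 : 1 ≤ B := le_max_left _ _
  have hBt : B ≠ ∞ := by
    rw [hB, Ne, max_eq_top]
    simp [hK₀]
  have hB0 : B ≠ 0 := fun h => by rw [h] at hB1; simp at hB1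
  refine ⟨4 * B + 2 ^ (p + 1), by
    refine ENNReal.add_ne_top.mpr ⟨ENNReal.mul_ne_top (by norm_num) hBt, ?_⟩
    exact ENNReal.rpow_ne_top_of_nonneg (by linarith) (by norm_num), ?_⟩
  intro w hw f hf hfin hf0
  let F : ℕ → ℝ → ℝ≥0∞ := fun k => Mx^[k] f
  have hF0 : F 0 = f := rfl
  have hFs : ∀ k, F (k + 1) = Mx (F k) := fun k => Function.iterate_succ_apply' _ _ _
  have hFm : ∀ k, Measurable (F k) := by
    intro k
    cases k with
    | zero => exact hf
    | succ k => rw [hFs]; exact hmm.1 _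
  have hFp : ∀ k, ∫⁻ x, F k x ^ p * w x ≤ B ^ k * ∫⁻ x, f x ^ p * w x := by
    intro k
    induction k with
    | zero => rw [hF0, pow_zero, one_mul]
    | succ k ih =>
      rw [hFs]
      calc ∫⁻ x, Mx (F k) x ^ p * w x ≤ K₀ * ∫⁻ x, F k x ^ p * w x := hM w hw _ (hFm k)
        _ ≤ B * (B ^ k * ∫⁻ x, f x ^ p * w x) := mul_le_mul' (le_max_right _ _) ih
        _ = B ^ (k + 1) * ∫⁻ x, f x ^ p * w x := by rw [pow_succ']; ring
  have h4B0 : 4 * B ≠ 0 := mul_ne_zero (by norm_num) hB0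
  have h4Bt : 4 * B ≠ ∞ := ENNReal.mul_ne_top (by norm_num) hBt
  have h2B0 : 2 * B ≠ 0 := mul_ne_zero (by norm_num) hB0
  have h2Bt : 2 * B ≠ ∞ := ENNReal.mul_ne_top (by norm_num) hBt
  let g₀ : ℝ → ℝ≥0∞ := fun x => ∑' k, ((4 * B)⁻¹) ^ k * F k x
  have hg₀m : Measurable g₀ := Measurable.tsum fun k => (hFm k).const_mul _
  have hfg : ∀ x, f x ≤ g₀ x := by
    intro x
    have h1 := ENNReal.le_tsum (f := fun k => ((4 * B)⁻¹) ^ k * F k x) 0
    rw [pow_zero, one_mul] at h1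
    exact h1
  have hMg : ∀ x, Mx g₀ x ≤ 4 * B * g₀ x := by
    intro x
    refine (Mx_tsum F hFm (fun k => ((4 * B)⁻¹) ^ k) x).trans ?_
    have h1 : ∀ k, ((4 * B)⁻¹) ^ k * Mx (F k) x =
        4 * B * (((4 * B)⁻¹) ^ (k + 1) * F (k + 1) x) := by
      intro k
      rw [hFs, pow_succ']
      calc ((4 * B)⁻¹) ^ k * Mx (F k) x = 1 * (((4 * B)⁻¹) ^ k * Mx (F k) x) := by rw [one_mul]
        _ = (4 * B * (4 * B)⁻¹) * (((4 * B)⁻¹) ^ k * Mx (F k) x) := by
          rw [ENNReal.mul_inv_cancel h4B0 h4Bt]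
        _ = _ := by ring
    simp only [h1]
    rw [ENNReal.tsum_mul_left]
    refine mul_le_mul_right ?_ _
    exact ENNReal.tsum_comp_le_tsum_of_injective (add_left_injective 1)
      (fun k => ((4 * B)⁻¹) ^ k * F k x)
  have hgp : ∫⁻ x, g₀ x ^ p * w x ≤ 2 ^ (p + 1) * ∫⁻ x, f x ^ p * w x := by
    have hp0 : 0 < p := by linarith
    have h1 : ∀ x, g₀ x ^ p ≤ 2 ^ p * ∑' k, (((2 * B)⁻¹) ^ k * F k x) ^ p := by
      intro x
      have h2 : g₀ x ≤ 2 * ⨆ k, (((2 * B)⁻¹) ^ k * F k x) := by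
        calc g₀ x = ∑' k, (2⁻¹ : ℝ≥0∞) ^ k * (((2 * B)⁻¹) ^ k * F k x) := by
              refine tsum_congr fun k => ?_
              rw [← mul_assoc, ← mul_pow]
              congr 2
              rw [← ENNReal.mul_inv (by left; norm_num) (by left; norm_num), ← mul_assoc]
              norm_num
          _ ≤ ∑' k, (2⁻¹ : ℝ≥0∞) ^ k * ⨆ k, (((2 * B)⁻¹) ^ k * F k x) :=
              ENNReal.tsum_le_tsum fun k => mul_le_mul_right (le_iSup
                (fun k => ((2 * B)⁻¹) ^ k * F k x) k) _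
          _ = 2 * ⨆ k, (((2 * B)⁻¹) ^ k * F k x) := by
              rw [ENNReal.tsum_mul_right, ENNReal.tsum_geometric, ENNReal.one_sub_inv_two,
                inv_inv]
      calc g₀ x ^ p ≤ (2 * ⨆ k, (((2 * B)⁻¹) ^ k * F k x)) ^ p :=
            ENNReal.rpow_le_rpow h2 hp0.le
        _ = 2 ^ p * (⨆ k, (((2 * B)⁻¹) ^ k * F k x)) ^ p :=
            ENNReal.mul_rpow_of_nonneg _ _ hp0.le
        _ ≤ 2 ^ p * ∑' k, (((2 * B)⁻¹) ^ k * F k x) ^ p := by
            refine mul_le_mul_right ?_ _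
            rw [← ENNReal.le_rpow_inv_iff hp0]
            refine iSup_le fun k => ?_
            rw [ENNReal.le_rpow_inv_iff hp0]
            exact ENNReal.le_tsum (f := fun k => (((2 * B)⁻¹) ^ k * F k x) ^ p) k
    calc ∫⁻ x, g₀ x ^ p * w x
        ≤ ∫⁻ x, 2 ^ p * ∑' k, (((2 * B)⁻¹) ^ k * F k x) ^ p * w x := by
          refine lintegral_mono fun x => ?_
          rw [ENNReal.tsum_mul_right, ← mul_assoc]
          exact mul_le_mul_left (h1 x) _
      _ = 2 ^ p * ∑' k, ∫⁻ x, (((2 * B)⁻¹) ^ k * F k x) ^ p * w x := by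
          have hm : ∀ k, Measurable fun x => (((2 * B)⁻¹) ^ k * F k x) ^ p * w x := fun k =>
            (((hFm k).const_mul _).pow_const _).mul hw.meas
          rw [lintegral_const_mul _ (Measurable.tsum hm),
            lintegral_tsum fun k => (hm k).aemeasurable]
      _ ≤ 2 ^ p * ∑' k, (2⁻¹ : ℝ≥0∞) ^ k * ∫⁻ x, f x ^ p * w x := by
          refine mul_le_mul_right (ENNReal.tsum_le_tsum fun k => ?_) _
          have h3 : ∀ x, (((2 * B)⁻¹) ^ k * F k x) ^ p * w x =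
              (((2 * B)⁻¹) ^ k) ^ p * (F k x ^ p * w x) := by
            intro x
            rw [ENNReal.mul_rpow_of_nonneg _ _ hp0.le, mul_assoc]
          simp only [h3]
          have h6 : Measurable fun x => F k x ^ p * w x := ((hFm k).pow_const _).mul hw.meas
          rw [lintegral_const_mul _ h6]
          have h4 : (((2 * B)⁻¹) ^ k) ^ p ≤ ((2 * B)⁻¹) ^ k := by
            have h5 : ((2 * B)⁻¹) ^ k ≤ 1 := by
              apply pow_le_one'
              rw [ENNReal.inv_le_one]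
              calc (1 : ℝ≥0∞) = 1 * 1 := by norm_num
                _ ≤ 2 * B := mul_le_mul' (by norm_num) hB1
            calc (((2 * B)⁻¹) ^ k) ^ p ≤ (((2 * B)⁻¹) ^ k) ^ (1 : ℝ) :=
                  ENNReal.rpow_le_rpow_of_exponent_ge h5 hp.le
              _ = ((2 * B)⁻¹) ^ k := ENNReal.rpow_one _
          calc (((2 * B)⁻¹) ^ k) ^ p * ∫⁻ x, F k x ^ p * w x
              ≤ ((2 * B)⁻¹) ^ k * (B ^ k * ∫⁻ x, f x ^ p * w x) := mul_le_mul' h4 (hFp k)
            _ = ((2 * B)⁻¹ * B) ^ k * ∫⁻ x, f x ^ p * w x := by rw [mul_pow]; ring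
            _ = (2⁻¹ : ℝ≥0∞) ^ k * ∫⁻ x, f x ^ p * w x := by
                rw [ENNReal.mul_inv (by left; norm_num) (by left; norm_num), mul_assoc,
                  ENNReal.inv_mul_cancel hB0 hBt, mul_one]
      _ = 2 ^ (p + 1) * ∫⁻ x, f x ^ p * w x := by
          rw [ENNReal.tsum_mul_right, ENNReal.tsum_geometric, ENNReal.one_sub_inv_two, inv_inv,
            ← mul_assoc, ENNReal.rpow_add _ _ (by norm_num) (by norm_num), ENNReal.rpow_one]
  have hg0 : ∀ x, g₀ x ≠ 0 := by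
    intro x h0
    have h1 := ENNReal.tsum_eq_zero.mp h0 1
    rw [pow_one, hFs, hF0, mul_eq_zero] at h1
    rcases h1 with h1 | h1
    · rw [ENNReal.inv_eq_zero] at h1
      exact h4Bt h1
    · exact Mx_ne_zero hf hf0 x h1
  have hgt : ∀ᵐ x, g₀ x ≠ ∞ := by
    have h1 : ∫⁻ x, g₀ x ^ p * w x ≠ ∞ := by
      refine ne_top_of_le_ne_top (ENNReal.mul_ne_top ?_ hfin) hgp
      exact ENNReal.rpow_ne_top_of_nonneg (by linarith) (by norm_num)
    filter_upwards [ae_lt_top ((hg₀m.pow_const _).mul hw.meas) h1] with x hx htop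
    simp only [Pi.mul_apply, htop, ENNReal.top_rpow_of_pos (show 0 < p by linarith),
      ENNReal.top_mul (hw.pos x)] at hx
    exact lt_irrefl _ hx
  classical
  let g : ℝ → ℝ≥0∞ := fun x => if g₀ x = ∞ then 1 else g₀ x
  have hgae : g =ᵐ[volume] g₀ := by
    filter_upwards [hgt] with x hx
    simp [g, hx]
  refine ⟨g, Measurable.ite (measurableSet_eq_fun hg₀m measurable_const) measurable_const hg₀m,
    ?_, ?_, ?_, ?_, ?_⟩
  · intro x
    simp only [g]
    split_ifs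
    · exact one_ne_zero
    · exact hg0 x
  · intro x
    simp only [g]
    split_ifs with h
    · exact ENNReal.one_ne_top
    · exact h
  · filter_upwards [hgae] with x hx
    rw [hx]
    exact hfg x
  · filter_upwards [hgae] with x hx
    rw [hx, Mx_congr hgae]
    exact (hMg x).trans (mul_le_mul_left le_self_add _)
  · calc ∫⁻ x, g x ^ p * w x = ∫⁻ x, g₀ x ^ p * w x := by
          refine lintegral_congr_ae ?_
          filter_upwards [hgae] with x hx
          rw [hx]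
      _ ≤ 2 ^ (p + 1) * ∫⁻ x, f x ^ p * w x := hgp
      _ ≤ (4 * B + 2 ^ (p + 1)) * ∫⁻ x, f x ^ p * w x := mul_le_mul_left le_add_self _

end Pool.Agent.K3h60.GL
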