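import Pool.Agent.K3h74.GL.Stm

/-!
# The weight `g ^ (p - 2) * w`
-/

set_option autoImplicit false

open MeasureTheory Set
open scoped ENNReal NNReal

namespace Pool.Agent.K3h60.GL

open Pool.Agent.K3h74.GL

theorem setInt_I (z y : ℝ) (F : ℝ → ℝ≥0∞) :
    ∫⁻ x in I z y, F x = ∫⁻ x in Ioo (z - y) (z + y), F x :=
  (setLIntegral_congr Ioo_ae_eq_Icc).symm

theorem t_W2 : S_W2 := by
  intro p C K hp hp2 hC hK
  refine ⟨K ^ (2 - p) * (2 ^ (2 - p) * C), ?_, ?_⟩
  · refine ENNReal.mul_ne_top (ENNReal.rpow_ne_top_of_nonneg (by linarith) hK)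
      (ENNReal.mul_ne_top (ENNReal.rpow_ne_top_of_nonneg (by linarith) (by norm_num)) hC)
  intro w g hw hgm hg0 hgt hMg
  have hgp0 : ∀ x (s : ℝ), g x ^ s ≠ 0 := by
    intro x s h
    rw [ENNReal.rpow_eq_zero_iff] at h
    rcases h with h | h
    · exact hg0 x h.1
    · exact hgt x h.1
  have hgpt : ∀ x (s : ℝ), g x ^ s ≠ ∞ := by
    intro x s h
    rw [ENNReal.rpow_eq_top_iff] at h
    rcases h with h | h
    · exact hg0 x h.1
    · exact hgt x h.1
  -- the main facts on an interval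
  have key : ∀ z y : ℝ, 0 < y → ∃ m : ℝ≥0∞, m ≠ 0 ∧ m ≠ ∞ ∧ K ≠ 0 ∧
      ∫⁻ x in I z y, g x = ENNReal.ofReal (2 * y) * m ∧
      ∫⁻ x in I z y, g x ^ (p - 2) * w x ≤ ((m / K) ^ (2 - p))⁻¹ * ∫⁻ x in I z y, w x := by
    intro z y hy
    have h2y0 : ENNReal.ofReal (2 * y) ≠ 0 := by
      rw [Ne, ENNReal.ofReal_eq_zero]
      linarith
    have h2yt : ENNReal.ofReal (2 * y) ≠ ∞ := ENNReal.ofReal_ne_top
    have hmeas : MeasurableSet (Ioo (z - y) (z + y)) := measurableSet_Ioo
    have hvol : volume (Ioo (z - y) (z + y)) ≠ 0 := by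
      rw [Real.volume_Ioo, Ne, ENNReal.ofReal_eq_zero]
      linarith
    set m : ℝ≥0∞ := (∫⁻ x in I z y, g x) / ENNReal.ofReal (2 * y) with hm
    have hmg : ∀ᵐ x ∂(volume.restrict (Ioo (z - y) (z + y))), m ≤ K * g x := by
      rw [ae_restrict_iff' hmeas]
      filter_upwards [hMg] with x hx hxI
      refine le_trans ?_ hx
      unfold Mx
      refine le_iSup_of_le z (le_iSup_of_le y (le_iSup_of_le ?_ le_rfl))
      rw [abs_lt]
      constructor <;> linarith [hxI.1, hxI.2]
    have hm0 : m ≠ 0 := by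
      intro h0
      rw [hm, ENNReal.div_eq_zero_iff] at h0
      rcases h0 with h0 | h0
      · rw [setInt_I, setLIntegral_eq_zero_iff hmeas hgm] at h0
        apply hvol
        rw [measure_eq_zero_iff_ae_notMem]
        filter_upwards [h0] with x hx hxI
        exact hg0 x (hx hxI)
      · exact h2yt h0
    obtain ⟨x₀, hx₀⟩ : ∃ x, m ≤ K * g x := by
      by_contra hcon
      push Not at hcon
      apply hvol
      rw [ae_restrict_iff' hmeas] at hmg
      rw [measure_eq_zero_iff_ae_notMem]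
      filter_upwards [hmg] with x hx hxI
      exact absurd (hx hxI) (not_le.mpr (hcon x))
    have hmt : m ≠ ∞ := ne_top_of_le_ne_top (ENNReal.mul_ne_top hK (hgt x₀)) hx₀
    have hK0 : K ≠ 0 := by
      intro h
      rw [h, zero_mul, nonpos_iff_eq_zero] at hx₀
      exact hm0 hx₀
    refine ⟨m, hm0, hmt, hK0, ?_, ?_⟩
    · rw [hm, ENNReal.mul_div_cancel h2y0 h2yt]
    · rw [setInt_I z y (fun x => g x ^ (p - 2) * w x), setInt_I z y w,
        ← lintegral_const_mul _ hw.meas]
      refine lintegral_mono_ae ?_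
      filter_upwards [hmg] with x hx
      refine mul_le_mul_left ?_ _
      have h1 : g x ^ (p - 2) = (g x ^ (2 - p))⁻¹ := by
        rw [← ENNReal.rpow_neg]
        congr 1
        ring
      rw [h1, ENNReal.inv_le_inv]
      apply ENNReal.rpow_le_rpow _ (by linarith)
      rw [ENNReal.div_le_iff hK0 hK, mul_comm]
      exact hx
  refine ⟨(hgm.pow_const _).mul hw.meas, fun x => mul_ne_zero (hgp0 x _) (hw.pos x),
    fun x => ENNReal.mul_ne_top (hgpt x _) (hw.fin x), ?_, ?_⟩
  · intro z y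
    rcases le_or_gt y 0 with hy | hy
    · rw [setInt_I, Ioo_eq_empty (by linarith)]
      simp
    · obtain ⟨m, hm0, hmt, hK0, -, h1⟩ := key z y hy
      refine ne_top_of_le_ne_top (ENNReal.mul_ne_top ?_ (hw.loc z y)) h1
      rw [Ne, ENNReal.inv_eq_top, ENNReal.rpow_eq_zero_iff]
      rintro (h | h)
      · rw [ENNReal.div_eq_zero_iff] at h
        rcases h.1 with h | h
        · exact hm0 h
        · exact hK h
      · linarith [h.2]
  · intro z y hy
    obtain ⟨m, hm0, hmt, hK0, hgI, h1⟩ := key z y hy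
    have e1 : (2 : ℝ) - 1 = 1 := by norm_num
    rw [e1, ENNReal.rpow_one, div_one]
    have h2 : ∫⁻ x in I z y, (g x ^ (p - 2) * w x) ^ (-1 : ℝ) ≤
        (∫⁻ x in I z y, g x) ^ (2 - p) * (∫⁻ x in I z y, w x ^ (-(1 / (p - 1)))) ^ (p - 1) := by
      have h3 : ∀ x, (g x ^ (p - 2) * w x) ^ (-1 : ℝ) =
          g x ^ (2 - p) * (w x ^ (-(1 / (p - 1)))) ^ (p - 1) := by
        intro x
        rw [ENNReal.mul_rpow_of_ne_top (hgpt x _) (hw.fin x), ← ENNReal.rpow_mul,
          ← ENNReal.rpow_mul]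
        congr 2
        · ring
        · have : p - 1 ≠ 0 := by linarith
          field_simp
      simp only [h3]
      exact ENNReal.lintegral_mul_norm_pow_le hgm.aemeasurable
        (hw.meas.pow_const _).aemeasurable (by linarith) (by linarith) (by ring)
    have h5 := hw.ar z y hy
    have hmK : ((m / K) ^ (2 - p))⁻¹ * m ^ (2 - p) = K ^ (2 - p) := by
      rw [ENNReal.div_rpow_of_nonneg _ _ (by linarith), ENNReal.inv_div, mul_comm,
        ENNReal.mul_div_cancel]
      · intro h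
        rw [ENNReal.rpow_eq_zero_iff] at h
        rcases h with h | h
        · exact hm0 h.1
        · exact hmt h.1
      · intro h
        rw [ENNReal.rpow_eq_top_iff] at h
        rcases h with h | h
        · exact hm0 h.1
        · exact hmt h.1
      · left
        exact ENNReal.rpow_ne_top_of_nonneg (by linarith) hK
      · left
        intro h
        rw [ENNReal.rpow_eq_zero_iff] at h
        rcases h with h | h
        · exact hK0 h.1
        · exact hK h.1
    have hyy : ENNReal.ofReal (2 * y) ^ (2 - p) * ENNReal.ofReal y ^ p =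
        2 ^ (2 - p) * ENNReal.ofReal y ^ (2 : ℝ) := by
      rw [ENNReal.ofReal_mul (by norm_num), ENNReal.mul_rpow_of_nonneg _ _ (by linarith),
        mul_assoc, ← ENNReal.rpow_add _ _ _ ENNReal.ofReal_ne_top]
      · congr 2
        · norm_num
        · ring
      · rw [Ne, ENNReal.ofReal_eq_zero]
        linarith
    calc (∫⁻ x in I z y, g x ^ (p - 2) * w x) * ∫⁻ x in I z y, (g x ^ (p - 2) * w x) ^ (-1 : ℝ)
        ≤ (((m / K) ^ (2 - p))⁻¹ * ∫⁻ x in I z y, w x) *
          ((ENNReal.ofReal (2 * y) * m) ^ (2 - p) *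
            (∫⁻ x in I z y, w x ^ (-(1 / (p - 1)))) ^ (p - 1)) := by
          rw [← hgI]
          exact mul_le_mul' h1 h2
      _ = (((m / K) ^ (2 - p))⁻¹ * m ^ (2 - p)) * ENNReal.ofReal (2 * y) ^ (2 - p) *
          ((∫⁻ x in I z y, w x) * (∫⁻ x in I z y, w x ^ (-(1 / (p - 1)))) ^ (p - 1)) := by
          rw [ENNReal.mul_rpow_of_nonneg _ _ (by linarith : (0 : ℝ) ≤ 2 - p)]
          ring
      _ ≤ (((m / K) ^ (2 - p))⁻¹ * m ^ (2 - p)) * ENNReal.ofReal (2 * y) ^ (2 - p) *
          (C * ENNReal.ofReal y ^ p) := mul_le_mul_right h5 _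
      _ = K ^ (2 - p) * (C * (ENNReal.ofReal (2 * y) ^ (2 - p) * ENNReal.ofReal y ^ p)) := by
          rw [hmK]; ring
      _ = K ^ (2 - p) * (2 ^ (2 - p) * C) * ENNReal.ofReal y ^ (2 : ℝ) := by
          rw [hyy]; ring

end Pool.Agent.K3h60.GL
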